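import Mathlib

/-!
# Number of steps against time of the first visit for perturbed `3x+1` maps
-/

set_option autoImplicit false

open Finset Filter Topology

namespace Pool.Agent.Q247.CS

/-- the `3x+1` function -/
def T (x : ℤ) : ℤ := if x % 2 = 0 then x / 2 else (3 * x + 1) / 2

/-- the perturbed map -/
def U (ω : ℤ → Fin 6) (x : ℤ) : ℤ := T (x + ((ω x : ℕ) : ℤ))

/-- the number of tripling steps -/
def od (ω : ℤ → Fin 6) (x : ℤ) : ℕ := if (x + ((ω x : ℕ) : ℤ)) % 2 = 0 then 0 else 1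

/-- the number of steps `m ↦ m / 2`, `m ↦ 3 m + 1` in the first `k` applications of `U` -/
def steps (ω : ℤ → Fin 6) (k : ℕ) (n : ℤ) : ℕ := ∑ i ∈ range k, (1 + od ω ((U ω)^[i] n))

theorem steps_eq (ω : ℤ → Fin 6) (k : ℕ) (n : ℤ) :
    steps ω k n = k + ∑ i ∈ range k, od ω ((U ω)^[i] n) := by
  unfold steps
  rw [sum_add_distrib]
  simp

theorem steps_mono (ω : ℤ → Fin 6) (n : ℤ) {j k : ℕ} (h : j ≤ k) : steps ω j n ≤ steps ω k n := by
  unfold steps
  exact sum_le_sum_of_subset (range_mono h)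

theorem sum_inv_le : ∀ (m : ℕ) (S : Finset ℕ), S.card = m → (∀ x ∈ S, 1 ≤ x) →
    ∑ x ∈ S, (1 : ℝ) / x ≤ ∑ i ∈ range m, (1 : ℝ) / ((i : ℝ) + 1) := by
  intro m
  induction m with
  | zero =>
    intro S hS _
    rw [Finset.card_eq_zero] at hS
    rw [hS]
    simp
  | succ m ih =>
    intro S hS hpos
    have hne : S.Nonempty := by
      rw [← Finset.card_pos]
      omega
    have hM := S.max'_mem hne
    set M := S.max' hne with hMdef
    have hsub : S ⊆ Icc 1 M := by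
      intro x hx
      rw [mem_Icc]
      exact ⟨hpos x hx, S.le_max' x hx⟩
    have hcard := card_le_card hsub
    rw [Nat.card_Icc, hS] at hcard
    have h1 := ih (S.erase M) (by rw [card_erase_of_mem hM, hS]; rfl) (fun x hx => hpos x (mem_of_mem_erase hx))
    rw [← add_sum_erase S _ hM, sum_range_succ, add_comm]
    apply add_le_add h1
    apply one_div_le_one_div_of_le (by positivity)
    have : m + 1 ≤ M := by omega
    exact_mod_cast this

theorem harm (m : ℕ) : ∑ i ∈ range m, (1 : ℝ) / ((i : ℝ) + 1) ≤ 1 + Real.log m := by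
  have h := harmonic_le_one_add_log m
  have e : ((harmonic m : ℚ) : ℝ) = ∑ i ∈ range m, (1 : ℝ) / ((i : ℝ) + 1) := by
    unfold harmonic
    push_cast
    apply sum_congr rfl
    intro i _
    rw [one_div]
  rw [← e]
  exact h

theorem U_pos {ω : ℤ → Fin 6} {x : ℤ} (h : 1 ≤ x) : 1 ≤ U ω x := by
  unfold U T
  split_ifs <;> omega

theorem iter_pos {ω : ℤ → Fin 6} {x : ℤ} (h : 1 ≤ x) (i : ℕ) : 1 ≤ (U ω)^[i] x := by
  induction i with
  | zero => simpa using h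
  | succ i ih =>
    rw [Function.iterate_succ_apply']
    exact U_pos ih

theorem step_log {ω : ℤ → Fin 6} {x : ℤ} (h : 1 ≤ x) :
    0 ≤ Real.log (U ω x : ℝ) - Real.log x + Real.log 2 - (od ω x : ℝ) * Real.log 3 ∧
      Real.log (U ω x : ℝ) - Real.log x + Real.log 2 - (od ω x : ℝ) * Real.log 3 ≤ 6 * (1 / x) := by
  have hx : (1 : ℝ) ≤ (x : ℝ) := by exact_mod_cast h
  have hx0 : (0 : ℝ) < (x : ℝ) := by linarith
  have hc0 : (0 : ℝ) ≤ ((ω x : ℕ) : ℝ) := Nat.cast_nonneg _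
  have hc5 : ((ω x : ℕ) : ℝ) ≤ 5 := by
    have : (ω x : ℕ) ≤ 5 := by have := (ω x).isLt; omega
    exact_mod_cast this
  have key : ∀ t : ℝ, 0 ≤ t → t ≤ 6 / x → 0 ≤ Real.log (1 + t) ∧ Real.log (1 + t) ≤ 6 * (1 / x) := by
    intro t ht1 ht2
    refine ⟨Real.log_nonneg (by linarith), ?_⟩
    have h1 := Real.log_le_sub_one_of_pos (show (0 : ℝ) < 1 + t by linarith)
    rw [← div_eq_mul_one_div]
    linarith
  by_cases hp : (x + ((ω x : ℕ) : ℤ)) % 2 = 0
  · have h2 : 2 * U ω x = x + ((ω x : ℕ) : ℤ) := by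
      unfold U T
      rw [if_pos hp]
      omega
    have h2r : (U ω x : ℝ) = ((x : ℝ) + ((ω x : ℕ) : ℝ)) / 2 := by
      have : (2 : ℝ) * (U ω x : ℝ) = (x : ℝ) + ((ω x : ℕ) : ℝ) := by exact_mod_cast h2
      linarith
    have h3 : (od ω x : ℝ) = 0 := by
      unfold od
      rw [if_pos hp]
      simp
    have h4 : Real.log (U ω x : ℝ) - Real.log x + Real.log 2 - (od ω x : ℝ) * Real.log 3 =
        Real.log (1 + ((ω x : ℕ) : ℝ) / x) := by
      rw [h3, h2r, Real.log_div (by positivity) (by norm_num)]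
      have h5 : (1 : ℝ) + ((ω x : ℕ) : ℝ) / x = ((x : ℝ) + ((ω x : ℕ) : ℝ)) / x := by
        field_simp
      rw [h5, Real.log_div (by positivity) (by positivity)]
      ring
    rw [h4]
    apply key _ (by positivity)
    apply div_le_div_of_nonneg_right _ hx0.le
    linarith
  · have h2 : 2 * U ω x = 3 * (x + ((ω x : ℕ) : ℤ)) + 1 := by
      unfold U T
      rw [if_neg hp]
      omega
    have h2r : (U ω x : ℝ) = (3 * ((x : ℝ) + ((ω x : ℕ) : ℝ)) + 1) / 2 := by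
      have : (2 : ℝ) * (U ω x : ℝ) = 3 * ((x : ℝ) + ((ω x : ℕ) : ℝ)) + 1 := by exact_mod_cast h2
      linarith
    have h3 : (od ω x : ℝ) = 1 := by
      unfold od
      rw [if_neg hp]
      simp
    have h4 : Real.log (U ω x : ℝ) - Real.log x + Real.log 2 - (od ω x : ℝ) * Real.log 3 =
        Real.log (1 + (3 * ((ω x : ℕ) : ℝ) + 1) / (3 * x)) := by
      rw [h3, h2r, Real.log_div (by positivity) (by norm_num)]
      have h5 : (1 : ℝ) + (3 * ((ω x : ℕ) : ℝ) + 1) / (3 * x) =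
          (3 * ((x : ℝ) + ((ω x : ℕ) : ℝ)) + 1) / (3 * x) := by
        field_simp
        ring
      rw [h5, Real.log_div (by positivity) (by positivity), Real.log_mul (by norm_num) (by positivity)]
      ring
    rw [h4]
    apply key _ (by positivity)
    rw [div_le_div_iff₀ (by positivity) hx0]
    nlinarith

theorem traj {ω : ℤ → Fin 6} {n : ℤ} (h : 1 ≤ n) (k : ℕ) :
    0 ≤ Real.log ((U ω)^[k] n : ℤ) - Real.log n + k * Real.log 2 -
        ((∑ i ∈ range k, od ω ((U ω)^[i] n) : ℕ) : ℝ) * Real.log 3 ∧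
      Real.log ((U ω)^[k] n : ℤ) - Real.log n + k * Real.log 2 -
        ((∑ i ∈ range k, od ω ((U ω)^[i] n) : ℕ) : ℝ) * Real.log 3 ≤
        6 * ∑ i ∈ range k, (1 : ℝ) / (((U ω)^[i] n : ℤ) : ℝ) := by
  induction k with
  | zero => simp
  | succ k ih =>
    obtain ⟨h1, h2⟩ := step_log (ω := ω) (iter_pos (ω := ω) h k)
    rw [Function.iterate_succ_apply', sum_range_succ, sum_range_succ]
    push_cast
    push_cast at ih
    constructor
    · linarith [ih.1]
    · linarith [ih.2]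

/-- a trajectory is injective until the first visit to `A` -/
theorem inj_first {f : ℤ → ℤ} {A : Finset ℤ} {x : ℤ} {k : ℕ} (hk : f^[k] x ∈ A)
    (hmin : ∀ i < k, f^[i] x ∉ A) {i j : ℕ} (hij : i < j) (hj : j ≤ k) : f^[i] x ≠ f^[j] x := by
  intro hne
  have h1 : f^[k] x = f^[k - j + i] x := by
    rw [show k = (k - j) + j by omega, Function.iterate_add_apply, ← hne,
      ← Function.iterate_add_apply, show k - j + j - j + i = k - j + i by omega]
  rw [h1] at hk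
  exact hmin _ (by omega) hk

theorem first {f : ℤ → ℤ} {A : Finset ℤ} {x : ℤ} {k : ℕ} (hk : f^[k] x ∈ A) :
    ∃ k₀ ≤ k, f^[k₀] x ∈ A ∧ ∀ i < k₀, f^[i] x ∉ A := by
  classical
  have hex : ∃ k, f^[k] x ∈ A := ⟨k, hk⟩
  exact ⟨Nat.find hex, Nat.find_min' hex hk, Nat.find_spec hex, fun i hi => Nat.find_min hex hi⟩

/-- the number of tripling steps before the first visit, from below -/
theorem odd_low {ω : ℤ → Fin 6} {A : Finset ℤ} {n : ℤ} (h : 1 ≤ n) {k : ℕ} (hk : (U ω)^[k] n ∈ A)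
    (hmin : ∀ i < k, (U ω)^[i] n ∉ A) :
    k * Real.log 2 - Real.log n - 6 * (1 + Real.log k) ≤
      ((∑ i ∈ range k, od ω ((U ω)^[i] n) : ℕ) : ℝ) * Real.log 3 := by
  classical
  have h1 := (traj (ω := ω) h k).2
  have h2 : 0 ≤ Real.log ((U ω)^[k] n : ℤ) := by
    apply Real.log_nonneg
    exact_mod_cast iter_pos h k
  have hinj : Set.InjOn (fun i => ((U ω)^[i] n).toNat) ((range k : Finset ℕ) : Set ℕ) := by
    intro i hi j hj hij
    rw [Finset.mem_coe, mem_range] at hi hj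
    have hi1 := iter_pos (ω := ω) h i
    have hj1 := iter_pos (ω := ω) h j
    have hij' : (U ω)^[i] n = (U ω)^[j] n := by
      simp only at hij
      omega
    by_contra hne
    rcases lt_or_gt_of_ne hne with hlt | hlt
    · exact inj_first hk hmin hlt hj.le hij'
    · exact inj_first hk hmin hlt hi.le hij'.symm
  have h3 : ∑ i ∈ range k, (1 : ℝ) / (((U ω)^[i] n : ℤ) : ℝ) ≤ 1 + Real.log k := by
    have h4 : ∑ i ∈ range k, (1 : ℝ) / (((U ω)^[i] n : ℤ) : ℝ) =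
        ∑ x ∈ (range k).image (fun i => ((U ω)^[i] n).toNat), (1 : ℝ) / x := by
      rw [sum_image hinj]
      apply sum_congr rfl
      intro i _
      have hi1 := iter_pos (ω := ω) h i
      have : ((((U ω)^[i] n).toNat : ℕ) : ℝ) = (((U ω)^[i] n : ℤ) : ℝ) := by
        have h5 : ((((U ω)^[i] n).toNat : ℕ) : ℤ) = (U ω)^[i] n := by omega
        exact_mod_cast h5
      rw [this]
    rw [h4]
    have h5 := sum_inv_le k ((range k).image (fun i => ((U ω)^[i] n).toNat))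
      (by rw [card_image_of_injOn hinj, card_range]) (by
        intro x hx
        rw [mem_image] at hx
        obtain ⟨i, _, rfl⟩ := hx
        have hi1 := iter_pos (ω := ω) h i
        omega)
    exact h5.trans (harm k)
  linarith

/-- the number of tripling steps before a visit, from above -/
theorem odd_up {ω : ℤ → Fin 6} {n : ℤ} (h : 1 ≤ n) (k : ℕ) :
    ((∑ i ∈ range k, od ω ((U ω)^[i] n) : ℕ) : ℝ) * Real.log 3 ≤
      k * Real.log 2 - Real.log n + Real.log ((U ω)^[k] n : ℤ) := by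
  have h1 := (traj (ω := ω) h k).1
  linarith

theorem log3_pos : 0 < Real.log 3 := Real.log_pos (by norm_num)
theorem log2_pos : 0 < Real.log 2 := Real.log_pos (by norm_num)

/-- from the scaled time of the first visit to the scaled number of steps -/
noncomputable def lam (γ : ℝ) : ℝ := γ * (1 + Real.log 2 / Real.log 3) - 1 / Real.log 3

theorem bound_A (A : Finset ℤ) : ∃ C : ℝ, 0 ≤ C ∧ ∀ a ∈ A, Real.log (a : ℝ) ≤ C := by
  classical
  obtain ⟨C, hC⟩ := (A.image (fun a : ℤ => Real.log (a : ℝ))).bddAbove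
  refine ⟨max C 0, le_max_right _ _, fun a ha => ?_⟩
  exact (hC (Finset.mem_coe.2 (mem_image_of_mem _ ha))).trans (le_max_left _ _)

/-- the number of steps at a visit, from above -/
theorem steps_up {ω : ℤ → Fin 6} {A : Finset ℤ} {C : ℝ} (hC : ∀ a ∈ A, Real.log (a : ℝ) ≤ C) {n : ℤ}
    (h : 1 ≤ n) {k : ℕ} (hk : (U ω)^[k] n ∈ A) :
    (steps ω k n : ℝ) ≤ k * (1 + Real.log 2 / Real.log 3) - Real.log n * (1 / Real.log 3) +
      C * (1 / Real.log 3) := by
  have h1 := odd_up (ω := ω) h k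
  have h2 := hC _ hk
  have h3 := log3_pos
  rw [steps_eq]
  push_cast
  push_cast at h1
  have h4 : (∑ i ∈ range k, (od ω ((U ω)^[i] n) : ℝ)) ≤
      (k * Real.log 2 - Real.log n + C) / Real.log 3 := by
    rw [le_div_iff₀ h3]
    linarith
  have h5 : (k * Real.log 2 - Real.log n + C) / Real.log 3 =
      k * (Real.log 2 / Real.log 3) - Real.log n * (1 / Real.log 3) + C * (1 / Real.log 3) := by
    field_simp
  linarith

/-- the number of steps at a visit, from below -/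
theorem steps_low {δ : ℝ} (hδ : 0 < δ) : ∃ K : ℕ, ∀ (ω : ℤ → Fin 6) (A : Finset ℤ) (n : ℤ), 1 ≤ n →
    ∀ k₀ : ℕ, K ≤ k₀ → (U ω)^[k₀] n ∈ A → (∀ i < k₀, (U ω)^[i] n ∉ A) →
      k₀ * (1 + Real.log 2 / Real.log 3 - δ) - Real.log n * (1 / Real.log 3) ≤ (steps ω k₀ n : ℝ) := by
  have h3 := log3_pos
  have hlit : ∀ᶠ k : ℕ in atTop, 6 * (1 + Real.log k) ≤ δ * Real.log 3 * k := by
    have h4 : Tendsto (fun k : ℕ => Real.log (k : ℝ) / (k : ℝ)) atTop (𝓝 0) := by
      have := (Real.isLittleO_log_id_atTop.tendsto_div_nhds_zero).comp tendsto_natCast_atTop_atTop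
      exact this
    have h5 : Tendsto (fun k : ℕ => (1 : ℝ) / (k : ℝ)) atTop (𝓝 0) := tendsto_one_div_atTop_nhds_zero_nat
    have h6 : Tendsto (fun k : ℕ => 6 * ((1 : ℝ) / (k : ℝ) + Real.log (k : ℝ) / (k : ℝ))) atTop (𝓝 0) := by
      have := (h5.add h4).const_mul 6
      simpa using this
    filter_upwards [h6.eventually (gt_mem_nhds (show (0 : ℝ) < δ * Real.log 3 by positivity)),
      eventually_ge_atTop 1] with k hk hk1
    have hk0 : (0 : ℝ) < k := by exact_mod_cast hk1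
    have h7 : 6 * ((1 : ℝ) / (k : ℝ) + Real.log (k : ℝ) / (k : ℝ)) = 6 * (1 + Real.log k) / k := by
      field_simp
    rw [h7, div_lt_iff₀ hk0] at hk
    linarith
  obtain ⟨K, hK⟩ := eventually_atTop.1 hlit
  refine ⟨K, fun ω A n hn k₀ hk₀ hk hmin => ?_⟩
  have h1 := odd_low hn hk hmin
  have h2 := hK k₀ hk₀
  rw [steps_eq]
  push_cast
  push_cast at h1
  have h4 : (k₀ * Real.log 2 - Real.log n - δ * Real.log 3 * k₀) / Real.log 3 ≤
      (∑ i ∈ range k₀, (od ω ((U ω)^[i] n) : ℝ)) := by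
    rw [div_le_iff₀ h3]
    linarith
  have h5 : (k₀ * Real.log 2 - Real.log n - δ * Real.log 3 * k₀) / Real.log 3 =
      k₀ * (Real.log 2 / Real.log 3) - Real.log n * (1 / Real.log 3) - δ * k₀ := by
    field_simp
  linarith

theorem log_large (c : ℝ) : ∃ N : ℕ, ∀ n : ℕ, N ≤ n → c ≤ Real.log n := by
  have h1 := (Real.tendsto_log_atTop.comp tendsto_natCast_atTop_atTop).eventually_ge_atTop c
  exact eventually_atTop.1 h1

theorem a_pos : 0 < 1 + Real.log 2 / Real.log 3 := by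
  have := log3_pos
  have := log2_pos
  positivity

/-- **upper bound for the number of steps** -/
theorem up {ω : ℤ → Fin 6} {A : Finset ℤ} {γ : ℝ}
    (h : ∀ ε : ℝ, ε > 0 → ∃ N : ℕ, ∀ n : ℕ, N ≤ n →
      ∃ k : ℕ, (U ω)^[k] (n : ℤ) ∈ A ∧ (k : ℝ) ≤ (γ + ε) * Real.log (n : ℝ)) :
    ∀ ε : ℝ, ε > 0 → ∃ N : ℕ, ∀ n : ℕ, N ≤ n →
      ∃ k : ℕ, (U ω)^[k] (n : ℤ) ∈ A ∧ (steps ω k n : ℝ) ≤ (lam γ + ε) * Real.log (n : ℝ) := by
  intro ε hε
  have ha := a_pos
  have h3 := log3_pos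
  obtain ⟨C, hC0, hC⟩ := bound_A A
  obtain ⟨N₁, hN₁⟩ := h (ε / 2 / (1 + Real.log 2 / Real.log 3)) (by positivity)
  obtain ⟨N₂, hN₂⟩ := log_large (2 * (C * (1 / Real.log 3)) / ε)
  refine ⟨max (max N₁ N₂) 1, fun n hn => ?_⟩
  have hn1 : 1 ≤ n := (le_max_right _ _).trans hn
  obtain ⟨k, hk1, hk2⟩ := hN₁ n (((le_max_left _ _).trans (le_max_left _ _)).trans hn)
  have h5 := hN₂ n (((le_max_right _ _).trans (le_max_left _ _)).trans hn)
  refine ⟨k, hk1, ?_⟩
  have h6 := steps_up hC (by exact_mod_cast hn1) hk1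
  rw [Int.cast_natCast] at h6
  rw [div_le_iff₀ hε] at h5
  have h7 := mul_le_mul_of_nonneg_right hk2 ha.le
  have h8 : (γ + ε / 2 / (1 + Real.log 2 / Real.log 3)) * Real.log (n : ℝ) *
      (1 + Real.log 2 / Real.log 3) =
      γ * (1 + Real.log 2 / Real.log 3) * Real.log n + ε / 2 * Real.log n := by
    field_simp
  unfold lam
  nlinarith

/-- a number of steps at all visits, from below -/
theorem low_of {δ c β : ℝ} (hδ : 0 < δ) (hc : 0 < c) (hδa : δ ≤ 1)
    (hβ : β ≤ c * (1 + Real.log 2 / Real.log 3 - δ) - 1 / Real.log 3) :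
    ∃ N : ℕ, ∀ (ω : ℤ → Fin 6) (A : Finset ℤ) (n : ℕ), N ≤ n →
      (∀ k : ℕ, (U ω)^[k] (n : ℤ) ∈ A → c * Real.log (n : ℝ) ≤ (k : ℝ)) →
      ∀ k : ℕ, (U ω)^[k] (n : ℤ) ∈ A → β * Real.log (n : ℝ) ≤ (steps ω k n : ℝ) := by
  have ha := a_pos
  have h3 := log3_pos
  obtain ⟨K, hK⟩ := steps_low hδ
  obtain ⟨N₂, hN₂⟩ := log_large (K / c)
  refine ⟨max N₂ 1, fun ω A n hn hall k hk => ?_⟩
  have hn1 : 1 ≤ n := (le_max_right _ _).trans hn
  have h5 := hN₂ n ((le_max_left _ _).trans hn)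
  obtain ⟨k₀, hk₀, hk₁, hk₂⟩ := first hk
  have h6 := hall k₀ hk₁
  rw [div_le_iff₀ hc] at h5
  have hKk : K ≤ k₀ := by
    have : (K : ℝ) ≤ (k₀ : ℝ) := by linarith
    exact_mod_cast this
  have h7 := hK ω A n (by exact_mod_cast hn1) k₀ hKk hk₁ hk₂
  rw [Int.cast_natCast] at h7
  have h8 : (steps ω k₀ n : ℝ) ≤ (steps ω k n : ℝ) := by exact_mod_cast steps_mono ω n hk₀
  refine le_trans ?_ h8
  refine le_trans ?_ h7
  have hln : 0 ≤ Real.log (n : ℝ) := Real.log_natCast_nonneg n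
  have h9 : 0 ≤ 1 + Real.log 2 / Real.log 3 - δ := by
    have : 0 < Real.log 2 / Real.log 3 := by
      have := log2_pos
      positivity
    linarith
  have h10 := mul_le_mul_of_nonneg_right h6 h9
  have h11 := mul_le_mul_of_nonneg_right hβ hln
  nlinarith

/-- **lower bound for the number of steps** -/
theorem low {ω : ℤ → Fin 6} {A : Finset ℤ} {γ : ℝ} (hγ : 0 < γ)
    (h : ∀ ε : ℝ, ε > 0 → ∀ N : ℕ, ∃ n : ℕ, N ≤ n ∧
      ∀ k : ℕ, (U ω)^[k] (n : ℤ) ∈ A → (γ - ε) * Real.log (n : ℝ) ≤ (k : ℝ)) :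
    ∀ ε : ℝ, ε > 0 → ∀ N : ℕ, ∃ n : ℕ, N ≤ n ∧
      ∀ k : ℕ, (U ω)^[k] (n : ℤ) ∈ A → (lam γ - ε) * Real.log (n : ℝ) ≤ (steps ω k n : ℝ) := by
  intro ε hε N
  have ha := a_pos
  have h3 := log3_pos
  -- choose `c = γ - η` and `δ`
  set a := 1 + Real.log 2 / Real.log 3 with hadef
  obtain ⟨η, hη0, hη1, hη2⟩ : ∃ η : ℝ, 0 < η ∧ η < γ ∧ η * a ≤ ε / 2 := by
    refine ⟨min (γ / 2) (ε / 2 / a), by positivity, ?_, ?_⟩
    · exact lt_of_le_of_lt (min_le_left _ _) (by linarith)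
    · have := min_le_right (γ / 2) (ε / 2 / a)
      rwa [le_div_iff₀ ha] at this
  obtain ⟨δ, hδ0, hδ1, hδ2⟩ : ∃ δ : ℝ, 0 < δ ∧ δ ≤ 1 ∧ γ * δ ≤ ε / 2 := by
    refine ⟨min 1 (ε / 2 / γ), by positivity, min_le_left _ _, ?_⟩
    have := min_le_right 1 (ε / 2 / γ)
    rw [le_div_iff₀ hγ] at this
    linarith
  obtain ⟨N₁, hN₁⟩ := low_of (c := γ - η) (β := lam γ - ε) hδ0 (by linarith) hδ1 (by
    rw [← hadef]
    unfold lam
    rw [← hadef]
    have h4 : (γ - η) * (a - δ) = γ * a - η * a - γ * δ + η * δ := by ring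
    rw [h4]
    have := mul_pos hη0 hδ0
    linarith)
  obtain ⟨n, hn1, hn2⟩ := h η hη0 (max N N₁)
  exact ⟨n, (le_max_left _ _).trans hn1, hN₁ ω A n ((le_max_right _ _).trans hn1) hn2⟩

/-- the number of steps is at most linear -/
theorem linear {ω : ℤ → Fin 6} {A : Finset ℤ} {γ : ℝ}
    (h : ∀ ε : ℝ, ε > 0 → ∃ N : ℕ, ∀ n : ℕ, N ≤ n →
      ∃ k : ℕ, (U ω)^[k] (n : ℤ) ∈ A ∧ (steps ω k n : ℝ) ≤ (γ + ε) * Real.log (n : ℝ)) :
    ∃ N : ℕ, ∀ n : ℕ, N ≤ n → ∃ k : ℕ, (U ω)^[k] (n : ℤ) ∈ A ∧ steps ω k n ≤ n := by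
  obtain ⟨N₁, hN₁⟩ := h 1 one_pos
  have h4 : Tendsto (fun k : ℕ => (γ + 1) * (Real.log (k : ℝ) / (k : ℝ))) atTop (𝓝 0) := by
    have h5 := (Real.isLittleO_log_id_atTop.tendsto_div_nhds_zero).comp tendsto_natCast_atTop_atTop
    have := h5.const_mul (γ + 1)
    simpa using this
  obtain ⟨N₂, hN₂⟩ := eventually_atTop.1 (h4.eventually (gt_mem_nhds one_pos))
  refine ⟨max (max N₁ N₂) 1, fun n hn => ?_⟩
  have hn1 : 1 ≤ n := (le_max_right _ _).trans hn
  obtain ⟨k, hk1, hk2⟩ := hN₁ n (((le_max_left _ _).trans (le_max_left _ _)).trans hn)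
  have h5 := hN₂ n (((le_max_right _ _).trans (le_max_left _ _)).trans hn)
  have hn0 : (0 : ℝ) < n := by exact_mod_cast hn1
  refine ⟨k, hk1, ?_⟩
  rw [← mul_div_assoc, div_lt_iff₀ hn0, one_mul] at h5
  have : (steps ω k n : ℝ) ≤ n := by linarith
  exact_mod_cast this

end Pool.Agent.Q247.CS
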