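import Pool.Agent.Q247.CS.Det

/-!
# Frequencies of large numbers of steps
-/

set_option autoImplicit false

open Finset Filter Topology

namespace Pool.Agent.Q247.CS

/-- the `n ≤ x` all of whose visits to `A` are at times at least `α log n` -/
def lateT (ω : ℤ → Fin 6) (A : Finset ℤ) (α x : ℝ) : Set ℕ :=
  {n : ℕ | 1 ≤ n ∧ (n : ℝ) ≤ x ∧ ∀ k : ℕ, (U ω)^[k] (n : ℤ) ∈ A → α * Real.log n ≤ k}

/-- the `n ≤ x` all of whose visits to `A` need at least `β log n` steps -/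
def lateSt (ω : ℤ → Fin 6) (A : Finset ℤ) (β x : ℝ) : Set ℕ :=
  {n : ℕ | 1 ≤ n ∧ (n : ℝ) ≤ x ∧ ∀ k : ℕ, (U ω)^[k] (n : ℤ) ∈ A → β * Real.log n ≤ (steps ω k n : ℝ)}

theorem lateT_finite (ω : ℤ → Fin 6) (A : Finset ℤ) (α x : ℝ) : (lateT ω A α x).Finite := by
  apply (Finset.range (⌊x⌋₊ + 1)).finite_toSet.subset
  intro n hn
  rw [Finset.mem_coe, Finset.mem_range]
  have := Nat.le_floor hn.2.1
  omega

theorem lateSt_finite (ω : ℤ → Fin 6) (A : Finset ℤ) (α x : ℝ) : (lateSt ω A α x).Finite := by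
  apply (Finset.range (⌊x⌋₊ + 1)).finite_toSet.subset
  intro n hn
  rw [Finset.mem_coe, Finset.mem_range]
  have := Nat.le_floor hn.2.1
  omega

theorem incl_low {α α' : ℝ} (hα : 0 < α) (h : α < α') : ∃ N : ℕ, ∀ (ω : ℤ → Fin 6) (A : Finset ℤ) (x : ℝ),
    lateT ω A α' x ⊆ lateSt ω A (lam α) x ∪ ((range N : Finset ℕ) : Set ℕ) := by
  have ha := a_pos
  set a := 1 + Real.log 2 / Real.log 3 with hadef
  have hα' : 0 < α' := hα.trans h
  obtain ⟨δ, hδ0, hδ1, hδ2⟩ : ∃ δ : ℝ, 0 < δ ∧ δ ≤ 1 ∧ δ * α' ≤ (α' - α) * a := by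
    have h0 : 0 < α' - α := by linarith
    refine ⟨min 1 ((α' - α) * a / α'), by positivity, min_le_left _ _, ?_⟩
    have := min_le_right 1 ((α' - α) * a / α')
    rwa [le_div_iff₀ hα'] at this
  obtain ⟨N, hN⟩ := low_of (c := α') (β := lam α) hδ0 hα' hδ1 (by
    unfold lam
    rw [← hadef]
    nlinarith)
  refine ⟨N, fun ω A x n hn => ?_⟩
  by_cases hnN : n < N
  · right
    rw [Finset.mem_coe, mem_range]
    exact hnN
  · left
    exact ⟨hn.1, hn.2.1, hN ω A n (not_lt.1 hnN) hn.2.2⟩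

theorem incl_up (A : Finset ℤ) {α α' : ℝ} (h : α' < α) : ∃ N : ℕ, ∀ (ω : ℤ → Fin 6) (x : ℝ),
    lateSt ω A (lam α) x ⊆ lateT ω A α' x ∪ ((range N : Finset ℕ) : Set ℕ) := by
  have ha := a_pos
  have h3 := log3_pos
  set a := 1 + Real.log 2 / Real.log 3 with hadef
  obtain ⟨C, hC0, hC⟩ := bound_A A
  obtain ⟨N, hN⟩ := log_large (C * (1 / Real.log 3) / a / (α - α'))
  refine ⟨N, fun ω x n hn => ?_⟩
  by_cases hnN : n < N
  · right
    rw [Finset.mem_coe, mem_range]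
    exact hnN
  · left
    refine ⟨hn.1, hn.2.1, fun k hk => ?_⟩
    have h1 := hn.2.2 k hk
    have h2 := steps_up hC (by exact_mod_cast hn.1) hk
    have h4 := hN n (not_lt.1 hnN)
    rw [Int.cast_natCast, ← hadef] at h2
    rw [div_le_iff₀ (by linarith), div_le_iff₀ ha] at h4
    unfold lam at h1
    rw [← hadef] at h1
    have h5 : (α' * Real.log n) * a ≤ (k : ℝ) * a := by nlinarith
    exact le_of_mul_le_mul_right h5 ha

theorem pow_gap {p q : ℝ} (hp : 0 < p) (hqp : q < p) (N : ℝ) : ∃ X₀ : ℝ, 1 ≤ X₀ ∧ ∀ x : ℝ, X₀ ≤ x →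
    x ^ q + N ≤ x ^ p := by
  obtain ⟨r, hr1, hr2⟩ := _root_.exists_between (max_lt hqp hp)
  have hqr : q < r := lt_of_le_of_lt (le_max_left _ _) hr1
  have hr0 : 0 < r := lt_of_le_of_lt (le_max_right _ _) hr1
  obtain ⟨X₁, hX₁⟩ := eventually_atTop.1
    ((tendsto_rpow_atTop (show 0 < p - r by linarith)).eventually_ge_atTop (1 + |N|))
  refine ⟨max X₁ 1, le_max_right _ _, fun x hx => ?_⟩
  have hx1 : 1 ≤ x := (le_max_right _ _).trans hx
  have h1 := hX₁ x ((le_max_left _ _).trans hx)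
  have h2 : (1 : ℝ) ≤ x ^ r := Real.one_le_rpow hx1 hr0.le
  have h3 : x ^ q ≤ x ^ r := Real.rpow_le_rpow_of_exponent_le hx1 hqr.le
  have h4 : x ^ p = x ^ (p - r) * x ^ r := by
    rw [← Real.rpow_add (by linarith)]
    congr 1
    ring
  rw [h4]
  have h5 : (1 + |N|) * x ^ r ≤ x ^ (p - r) * x ^ r := mul_le_mul_of_nonneg_right h1 (by linarith)
  have h6 := le_abs_self N
  have h7 := abs_nonneg N
  nlinarith

/-- **the law of the frequencies for the number of steps** -/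
theorem freq {ω : ℤ → Fin 6} {A : Finset ℤ} {E : ℝ → ℝ} {μ γ : ℝ} (hμ : 0 < μ)
    (hcont : ∀ α, μ < α → α < γ → ContinuousAt E α) (hpos : ∀ α, μ < α → α < γ → 0 < E α)
    (h : ∀ α : ℝ, μ < α → α < γ → ∀ ε : ℝ, ε > 0 → ∃ X₀ : ℝ, ∀ x : ℝ, X₀ ≤ x →
      x ^ (E α - ε) ≤ ((lateT ω A α x).ncard : ℝ) ∧ ((lateT ω A α x).ncard : ℝ) ≤ x ^ (E α + ε)) :
    ∀ α : ℝ, μ < α → α < γ → ∀ ε : ℝ, ε > 0 → ∃ X₀ : ℝ, ∀ x : ℝ, X₀ ≤ x →
      x ^ (E α - ε) ≤ ((lateSt ω A (lam α) x).ncard : ℝ) ∧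
        ((lateSt ω A (lam α) x).ncard : ℝ) ≤ x ^ (E α + ε) := by
  intro α hα1 hα2 ε hε
  have hα0 : 0 < α := hμ.trans hα1
  have hE := hpos α hα1 hα2
  -- the smaller `ε`
  set e := min ε (E α) with he
  have he0 : 0 < e := lt_min hε hE
  have he1 : e ≤ ε := min_le_left _ _
  have he2 : e ≤ E α := min_le_right _ _
  -- a larger `α`
  obtain ⟨α', hα'1, hα'2, hα'3⟩ : ∃ α' : ℝ, α < α' ∧ α' < γ ∧ E α - e / 3 < E α' := by
    have h1 := (hcont α hα1 hα2).eventually (lt_mem_nhds (show E α - e / 3 < E α by linarith))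
    have h2 := (h1.filter_mono nhdsWithin_le_nhds : ∀ᶠ x in 𝓝[>] α, E α - e / 3 < E x)
    have h3 : ∀ᶠ x in 𝓝[>] α, x < γ := (gt_mem_nhds hα2).filter_mono nhdsWithin_le_nhds
    have h4 : ∀ᶠ x in 𝓝[>] α, α < x := eventually_mem_nhdsWithin
    obtain ⟨x, hx1, hx2, hx3⟩ := (h2.and (h3.and h4)).exists
    exact ⟨x, hx3, hx2, hx1⟩
  -- a smaller `α`
  obtain ⟨α'', hα''1, hα''2, hα''3⟩ : ∃ α'' : ℝ, μ < α'' ∧ α'' < α ∧ E α'' < E α + e / 3 := by
    have h1 := (hcont α hα1 hα2).eventually (gt_mem_nhds (show E α < E α + e / 3 by linarith))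
    have h2 := (h1.filter_mono nhdsWithin_le_nhds : ∀ᶠ x in 𝓝[<] α, E x < E α + e / 3)
    have h3 : ∀ᶠ x in 𝓝[<] α, μ < x := (lt_mem_nhds hα1).filter_mono nhdsWithin_le_nhds
    have h4 : ∀ᶠ x in 𝓝[<] α, x < α := eventually_mem_nhdsWithin
    obtain ⟨x, hx1, hx2, hx3⟩ := (h2.and (h3.and h4)).exists
    exact ⟨x, hx2, hx3, hx1⟩
  obtain ⟨N₁, hN₁⟩ := incl_low hα0 hα'1
  obtain ⟨N₂, hN₂⟩ := incl_up A hα''2
  obtain ⟨X₁, hX₁⟩ := h α' (hα1.trans hα'1) hα'2 (e / 3) (by positivity)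
  obtain ⟨X₂, hX₂⟩ := h α'' hα''1 (hα''2.trans hα2) (e / 3) (by positivity)
  obtain ⟨X₃, hX₃0, hX₃⟩ := pow_gap (p := E α - 2 * e / 3) (q := E α - ε) (by linarith) (by linarith) N₁
  obtain ⟨X₄, hX₄0, hX₄⟩ := pow_gap (p := E α + ε) (q := E α + 2 * e / 3) (by linarith) (by linarith) N₂
  refine ⟨max (max X₁ X₂) (max X₃ X₄), fun x hx => ?_⟩
  have hx1 : X₁ ≤ x := ((le_max_left _ _).trans (le_max_left _ _)).trans hx
  have hx2 : X₂ ≤ x := ((le_max_right _ _).trans (le_max_left _ _)).trans hx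
  have hx3 : X₃ ≤ x := ((le_max_left _ _).trans (le_max_right _ _)).trans hx
  have hx4 : X₄ ≤ x := ((le_max_right _ _).trans (le_max_right _ _)).trans hx
  have hx0 : 1 ≤ x := hX₃0.trans hx3
  constructor
  · have h1 := (hX₁ x hx1).1
    have h2 := Set.ncard_le_ncard (hN₁ ω A x) ((lateSt_finite ω A _ x).union (range N₁).finite_toSet)
    have h3 := h2.trans (Set.ncard_union_le _ _)
    rw [Set.ncard_coe_finset, card_range] at h3
    have h4 : ((lateT ω A α' x).ncard : ℝ) ≤ ((lateSt ω A (lam α) x).ncard : ℝ) + N₁ := by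
      exact_mod_cast h3
    have h5 := hX₃ x hx3
    have h6 : x ^ (E α - 2 * e / 3) ≤ x ^ (E α' - e / 3) :=
      Real.rpow_le_rpow_of_exponent_le hx0 (by linarith)
    linarith
  · have h1 := (hX₂ x hx2).2
    have h2 := Set.ncard_le_ncard (hN₂ ω x) ((lateT_finite ω A _ x).union (range N₂).finite_toSet)
    have h3 := h2.trans (Set.ncard_union_le _ _)
    rw [Set.ncard_coe_finset, card_range] at h3
    have h4 : ((lateSt ω A (lam α) x).ncard : ℝ) ≤ ((lateT ω A α'' x).ncard : ℝ) + N₂ := by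
      exact_mod_cast h3
    have h5 := hX₄ x hx4
    have h6 : x ^ (E α'' + e / 3) ≤ x ^ (E α + 2 * e / 3) :=
      Real.rpow_le_rpow_of_exponent_le hx0 (by linarith)
    linarith

end Pool.Agent.Q247.CS
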